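import Pool.Agent.STR.Stmts

/-!
PRE and LAW: the second moment and the mean of the number of preimages under the chain.
-/

set_option autoImplicit false

namespace Pool.Agent.STR.H94

open Finset Pool.Agent.STR

/-! ### averages -/

theorem av_mono {Ω : Type} [Fintype Ω] {f g : Ω → ℝ} (h : ∀ ω, f ω ≤ g ω) : av f ≤ av g := by
  unfold av
  exact div_le_div_of_nonneg_right (Finset.sum_le_sum fun ω _ => h ω) (Nat.cast_nonneg _)

theorem av_const {Ω : Type} [Fintype Ω] [Nonempty Ω] (c : ℝ) : av (fun _ : Ω => c) = c := by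
  unfold av
  rw [Finset.sum_const, Finset.card_univ, nsmul_eq_mul]
  have h : (Fintype.card Ω : ℝ) ≠ 0 := Nat.cast_ne_zero.2 Fintype.card_ne_zero
  rw [mul_div_cancel_left₀ _ h]

theorem av_add {Ω : Type} [Fintype Ω] (f g : Ω → ℝ) :
    av (fun ω => f ω + g ω) = av f + av g := by
  unfold av
  rw [Finset.sum_add_distrib, add_div]

theorem av_mul {Ω : Type} [Fintype Ω] (c : ℝ) (f : Ω → ℝ) :
    av (fun ω => c * f ω) = c * av f := by
  unfold av
  rw [← Finset.mul_sum, mul_div_assoc]

theorem av_snoc {X : Type} [Fintype X] (K : ℕ) (f : (Fin (K + 1) → X) → ℝ) :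
    av f = av (fun s : X => av (fun ω : Fin K → X => f (Fin.snoc ω s))) := by
  unfold av
  have h1 : ∑ ω, f ω = ∑ s : X, ∑ ω : Fin K → X, f (Fin.snoc ω s) := by
    rw [← Fintype.sum_prod_type']
    exact (Fintype.sum_equiv (Fin.snocEquiv fun _ => X) _ _ fun _ => rfl).symm
  have h2 : (Fintype.card (Fin (K + 1) → X) : ℝ) =
      Fintype.card (Fin K → X) * Fintype.card X := by
    rw [Fintype.card_fun, Fintype.card_fun, Fintype.card_fin, Fintype.card_fin, pow_succ,
      Nat.cast_mul]
  rw [h1, h2, ← Finset.sum_div, div_div]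

theorem av_fin_zero {X : Type} [Fintype X] (f : (Fin 0 → X) → ℝ) (c : ℝ) (h : ∀ ω, f ω = c) :
    av f = c := by
  have : f = fun _ => c := funext h
  rw [this, av_const]

/-! ### flips -/

variable {α : Type} [Fintype α] [DecidableEq α]

omit [Fintype α] in
theorem fl_fl (x : α → Bool) (i : α) : fl (fl x i) i = x := by
  funext k
  by_cases h : k = i
  · subst h
    simp [fl]
  · simp [fl, Function.update_of_ne h]

omit [Fintype α] in
theorem fl_ne (x : α → Bool) (i : α) : fl x i ≠ x := by
  intro h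
  have := congrFun h i
  simp [fl] at this

omit [Fintype α] in
theorem step_eq_iff {Q : ℕ} (a : α → (α → Bool) → ℕ) (s : α × Fin Q) (z y : α → Bool) :
    step a s z = y ↔ (¬ (s.2 : ℕ) < a s.1 y ∧ z = y) ∨
      ((s.2 : ℕ) < a s.1 (fl y s.1) ∧ z = fl y s.1) := by
  unfold step
  by_cases h : (s.2 : ℕ) < a s.1 z
  · rw [if_pos h]
    constructor
    · intro h1
      right
      subst h1
      rw [fl_fl]
      exact ⟨h, rfl⟩
    · rintro (⟨h1, rfl⟩ | ⟨h1, rfl⟩)
      · exact absurd h h1
      · exact fl_fl _ _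
  · rw [if_neg h]
    constructor
    · rintro rfl
      exact Or.inl ⟨h, rfl⟩
    · rintro (⟨h1, rfl⟩ | ⟨h1, rfl⟩)
      · rfl
      · exact absurd h1 h

theorem cnt_step {Q : ℕ} (a : α → (α → Bool) → ℕ) (s : α × Fin Q)
    (R : (α → Bool) → (α → Bool)) (y : α → Bool) :
    (cnt (fun x => step a s (R x)) y : ℝ) =
      (if (s.2 : ℕ) < a s.1 y then 0 else (cnt R y : ℝ)) +
        (if (s.2 : ℕ) < a s.1 (fl y s.1) then (cnt R (fl y s.1) : ℝ) else 0) := by
  have h1 : (univ.filter fun x => step a s (R x) = y) =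
      (univ.filter fun x => ¬ (s.2 : ℕ) < a s.1 y ∧ R x = y) ∪
      (univ.filter fun x => (s.2 : ℕ) < a s.1 (fl y s.1) ∧ R x = fl y s.1) := by
    ext x
    simp only [Finset.mem_filter, Finset.mem_union, Finset.mem_univ, true_and]
    exact step_eq_iff a s (R x) y
  have h2 : Disjoint (univ.filter fun x => ¬ (s.2 : ℕ) < a s.1 y ∧ R x = y)
      (univ.filter fun x => (s.2 : ℕ) < a s.1 (fl y s.1) ∧ R x = fl y s.1) := by
    rw [Finset.disjoint_filter]
    rintro x _ ⟨_, h3⟩ ⟨_, h4⟩
    rw [h3] at h4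
    exact fl_ne _ _ h4.symm
  unfold cnt
  rw [h1, Finset.card_union_of_disjoint h2, Nat.cast_add]
  congr 1
  · by_cases h : (s.2 : ℕ) < a s.1 y
    · rw [if_pos h]
      simp [h]
    · rw [if_neg h]
      simp [h]
  · by_cases h : (s.2 : ℕ) < a s.1 (fl y s.1)
    · rw [if_pos h]
      simp [h]
    · rw [if_neg h]
      simp [h]

omit [Fintype α] in
theorem run_snoc {Q : ℕ} (a : ℕ → α → (α → Bool) → ℕ) (K : ℕ) (ω : Fin K → α × Fin Q)
    (s : α × Fin Q) (x : α → Bool) :
    run a (K + 1) (Fin.snoc ω s) x = step (a K) s (run a K ω x) := by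
  simp only [run, Fin.snoc_last, Fin.snoc_castSucc]

theorem cnt_run_zero {Q : ℕ} (a : ℕ → α → (α → Bool) → ℕ) (ω : Fin 0 → α × Fin Q)
    (y : α → Bool) : cnt (run a 0 ω) y = 1 := by
  unfold cnt
  have h2 : (univ.filter fun x => run a 0 ω x = y) = {y} := by
    ext x
    rw [Finset.mem_filter, Finset.mem_singleton]
    exact ⟨fun h => h.2, fun h => ⟨Finset.mem_univ _, h⟩⟩
  rw [h2, Finset.card_singleton]

/-- the fraction of the seeds below a threshold -/
theorem av_ind {Q : ℕ} [Nonempty α] (hQ : 0 < Q) (b : α → ℕ) (hb : ∀ j, b j ≤ Q) (f : α → ℝ) :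
    av (fun s : α × Fin Q => if (s.2 : ℕ) < b s.1 then f s.1 else 0) =
      (∑ j, (b j : ℝ) / Q * f j) / Fintype.card α := by
  unfold av
  have hQ' : (Q : ℝ) ≠ 0 := Nat.cast_ne_zero.2 hQ.ne'
  rw [Fintype.sum_prod_type, Fintype.card_prod, Fintype.card_fin, Nat.cast_mul]
  have h1 : ∀ j, ∑ U : Fin Q, (if (U : ℕ) < b j then f j else 0) = (b j : ℝ) * f j := by
    intro j
    rw [← Finset.sum_filter, Finset.sum_const, nsmul_eq_mul]
    congr 2
    have h2 : (univ.filter fun U : Fin Q => (U : ℕ) < b j).card = min (b j) Q := by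
      rw [Fin.card_filter_val_lt, min_comm]
    rw [h2, min_eq_left (hb j)]
  simp only [h1]
  rw [mul_comm (Fintype.card α : ℝ), ← div_div, Finset.sum_div]
  congr 1
  refine Finset.sum_congr rfl fun j _ => ?_
  ring

/-! ### PRE -/

/-- PRE -/
theorem pre : PreStmt := by
  intro α _ _ _ Q K a c hQ hc ha
  have hF : Nonempty (Fin Q) := ⟨⟨0, hQ⟩⟩
  induction K with
  | zero =>
    intro _ y
    rw [av_fin_zero _ 1, pow_zero]
    intro ω
    rw [cnt_run_zero]
    norm_num
  | succ K ih =>
    intro hsum y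
    have ih' := ih (fun k hk => hsum k (by omega))
    set m : ℝ := (1 + 3 * c) ^ K with hm
    have hm0 : 0 ≤ m := by positivity
    rw [av_snoc]
    have key : ∀ s : α × Fin Q,
        av (fun ω : Fin K → α × Fin Q => (cnt (run a (K + 1) (Fin.snoc ω s)) y : ℝ) ^ 2) ≤
          m + (if (s.2 : ℕ) < a K s.1 (fl y s.1) then 3 * m else 0) := by
      intro s
      have e1 : ∀ ω : Fin K → α × Fin Q, (cnt (run a (K + 1) (Fin.snoc ω s)) y : ℝ) =
          (if (s.2 : ℕ) < a K s.1 y then 0 else (cnt (run a K ω) y : ℝ)) +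
          (if (s.2 : ℕ) < a K s.1 (fl y s.1) then (cnt (run a K ω) (fl y s.1) : ℝ) else 0) := by
        intro ω
        rw [← cnt_step]
        congr 2
        funext x
        exact run_snoc a K ω s x
      simp only [e1]
      by_cases h2 : (s.2 : ℕ) < a K s.1 (fl y s.1)
      · simp only [if_pos h2]
        have h3 : av (fun ω : Fin K → α × Fin Q =>
            ((if (s.2 : ℕ) < a K s.1 y then 0 else (cnt (run a K ω) y : ℝ)) +
              (cnt (run a K ω) (fl y s.1) : ℝ)) ^ 2) ≤
            av (fun ω : Fin K → α × Fin Q => 2 * (cnt (run a K ω) y : ℝ) ^ 2 +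
              2 * (cnt (run a K ω) (fl y s.1) : ℝ) ^ 2) := by
          refine av_mono fun ω => ?_
          have hA : (0 : ℝ) ≤ cnt (run a K ω) y := Nat.cast_nonneg _
          have hB : (0 : ℝ) ≤ cnt (run a K ω) (fl y s.1) := Nat.cast_nonneg _
          split_ifs
          · nlinarith
          · nlinarith [sq_nonneg ((cnt (run a K ω) y : ℝ) - cnt (run a K ω) (fl y s.1))]
        rw [av_add, av_mul, av_mul] at h3
        have h4 := ih' y
        have h5 := ih' (fl y s.1)
        linarith
      · simp only [if_neg h2, add_zero]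
        have h3 : av (fun ω : Fin K → α × Fin Q =>
            (if (s.2 : ℕ) < a K s.1 y then 0 else (cnt (run a K ω) y : ℝ)) ^ 2) ≤
            av (fun ω : Fin K → α × Fin Q => (cnt (run a K ω) y : ℝ) ^ 2) := by
          refine av_mono fun ω => ?_
          split_ifs
          · rw [zero_pow two_ne_zero]
            exact sq_nonneg _
          · exact le_rfl
        exact h3.trans (ih' y)
    refine (av_mono key).trans ?_
    rw [av_add, av_const, av_ind hQ (fun j => a K j (fl y j)) (fun j => ha K j _) (fun _ => 3 * m),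
      ← Finset.sum_mul]
    have h6 := hsum K (Nat.lt_succ_self K) y
    have hN : (0 : ℝ) < Fintype.card α := Nat.cast_pos.2 Fintype.card_pos
    have h7 : (∑ j, (a K j (fl y j) : ℝ) / Q) * (3 * m) / Fintype.card α ≤ c * (3 * m) := by
      rw [div_le_iff₀ hN]
      calc (∑ j, (a K j (fl y j) : ℝ) / Q) * (3 * m) ≤ (Fintype.card α * c) * (3 * m) :=
            mul_le_mul_of_nonneg_right h6 (by positivity)
        _ = c * (3 * m) * Fintype.card α := by ring
    rw [pow_succ, ← hm]
    linarith

/-! ### LAW -/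

theorem mean_succ [Nonempty α] {Q : ℕ} (hQ : 0 < Q) (K : ℕ) (a : ℕ → α → (α → Bool) → ℕ)
    (ha : ∀ k j x, a k j x ≤ Q) (y : α → Bool) :
    av (fun ω : Fin (K + 1) → α × Fin Q => (cnt (run a (K + 1) ω) y : ℝ)) =
      av (fun ω : Fin K → α × Fin Q => (cnt (run a K ω) y : ℝ)) -
        (∑ j, (a K j y : ℝ) / Q * av (fun ω : Fin K → α × Fin Q => (cnt (run a K ω) y : ℝ))) /
          Fintype.card α +
        (∑ j, (a K j (fl y j) : ℝ) / Q *
          av (fun ω : Fin K → α × Fin Q => (cnt (run a K ω) (fl y j) : ℝ))) /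
          Fintype.card α := by
  have hF : Nonempty (Fin Q) := ⟨⟨0, hQ⟩⟩
  set n : (α → Bool) → ℝ :=
    fun z => av (fun ω : Fin K → α × Fin Q => (cnt (run a K ω) z : ℝ)) with hn
  rw [av_snoc]
  have key : ∀ s : α × Fin Q,
      av (fun ω : Fin K → α × Fin Q => (cnt (run a (K + 1) (Fin.snoc ω s)) y : ℝ)) =
        (n y + -1 * (if (s.2 : ℕ) < a K s.1 y then n y else 0)) +
          (if (s.2 : ℕ) < a K s.1 (fl y s.1) then n (fl y s.1) else 0) := by
    intro s
    have e1 : ∀ ω : Fin K → α × Fin Q, (cnt (run a (K + 1) (Fin.snoc ω s)) y : ℝ) =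
        (if (s.2 : ℕ) < a K s.1 y then 0 else (cnt (run a K ω) y : ℝ)) +
        (if (s.2 : ℕ) < a K s.1 (fl y s.1) then (cnt (run a K ω) (fl y s.1) : ℝ) else 0) := by
      intro ω
      rw [← cnt_step]
      congr 2
      funext x
      exact run_snoc a K ω s x
    simp only [e1]
    rw [av_add]
    congr 1
    · by_cases h : (s.2 : ℕ) < a K s.1 y
      · simp only [if_pos h]
        rw [av_const]
        ring
      · simp only [if_neg h]
        rw [hn]
        ring
    · by_cases h : (s.2 : ℕ) < a K s.1 (fl y s.1)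
      · simp only [if_pos h]
        rw [hn]
      · simp only [if_neg h]
        rw [av_const]
  simp only [key]
  rw [av_add, av_add, av_const, av_mul,
    av_ind hQ (fun j => a K j y) (fun j => ha K j _) (fun _ => n y),
    av_ind hQ (fun j => a K j (fl y j)) (fun j => ha K j _) (fun j => n (fl y j))]
  ring

/-- LAW -/
theorem law : LawStmt := by
  intro α _ _ _ Q K a p g hQ ha hg0 hgb hrec hap
  have hF : Nonempty (Fin Q) := ⟨⟨0, hQ⟩⟩
  have hQ' : (0 : ℝ) < Q := Nat.cast_pos.2 hQ
  have hN : (0 : ℝ) < Fintype.card α := Nat.cast_pos.2 Fintype.card_pos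
  have main : ∀ k, k ≤ K → ∀ y,
      |av (fun ω : Fin k → α × Fin Q => (cnt (run a k ω) y : ℝ)) - g k y| ≤
        (2 ^ k - 1) * (4 / Q) := by
    intro k
    induction k with
    | zero =>
      intro _ y
      rw [av_fin_zero _ 1, hg0]
      · simp
      intro ω
      rw [cnt_run_zero]
      norm_num
    | succ k ih =>
      intro hk y
      have ih' := ih (by omega)
      set E : ℝ := (2 ^ k - 1) * (4 / Q) with hE
      set n : (α → Bool) → ℝ :=
        fun z => av (fun ω : Fin k → α × Fin Q => (cnt (run a k ω) z : ℝ)) with hn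
      have hE0 : 0 ≤ E := (abs_nonneg _).trans (ih' y)
      rw [mean_succ hQ k a ha y, hrec k (by omega) y]
      change |n y - (∑ j, (a k j y : ℝ) / Q * n y) / Fintype.card α +
        (∑ j, (a k j (fl y j) : ℝ) / Q * n (fl y j)) / Fintype.card α -
        (g k y - (∑ j, p k j y) * g k y / Fintype.card α +
          (∑ j, p k j (fl y j) * g k (fl y j)) / Fintype.card α)| ≤ _
      have hq : ∀ j x, 0 ≤ (a k j x : ℝ) / Q ∧ (a k j x : ℝ) / Q ≤ 1 := by
        intro j x
        refine ⟨by positivity, ?_⟩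
        rw [div_le_one hQ']
        exact_mod_cast ha k j x
      -- the four parts
      set P : ℝ := (∑ j, (a k j y : ℝ) / Q) / Fintype.card α with hP
      have hP0 : 0 ≤ P := by
        rw [hP]
        exact div_nonneg (Finset.sum_nonneg fun j _ => (hq j y).1) hN.le
      have hP1 : P ≤ 1 := by
        rw [hP, div_le_one hN]
        calc ∑ j, (a k j y : ℝ) / Q ≤ ∑ _j : α, (1 : ℝ) :=
              Finset.sum_le_sum fun j _ => (hq j y).2
          _ = Fintype.card α := by simp
      have e : n y - (∑ j, (a k j y : ℝ) / Q * n y) / Fintype.card α +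
          (∑ j, (a k j (fl y j) : ℝ) / Q * n (fl y j)) / Fintype.card α -
          (g k y - (∑ j, p k j y) * g k y / Fintype.card α +
            (∑ j, p k j (fl y j) * g k (fl y j)) / Fintype.card α) =
          (1 - P) * (n y - g k y) +
          (∑ j, (a k j (fl y j) : ℝ) / Q * (n (fl y j) - g k (fl y j))) / Fintype.card α +
          -((∑ j, ((a k j y : ℝ) / Q - p k j y)) * g k y / Fintype.card α) +
          (∑ j, ((a k j (fl y j) : ℝ) / Q - p k j (fl y j)) * g k (fl y j)) /
            Fintype.card α := by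
        rw [hP]
        simp only [sub_mul, mul_sub, Finset.sum_sub_distrib, ← Finset.sum_mul]
        ring
      rw [e]
      have avg : ∀ (f : α → ℝ) (M : ℝ), (∀ j, |f j| ≤ M) →
          |(∑ j, f j) / Fintype.card α| ≤ M := by
        intro f M hf
        rw [abs_div, abs_of_pos hN, div_le_iff₀ hN]
        calc |∑ j, f j| ≤ ∑ j, |f j| := Finset.abs_sum_le_sum_abs _ _
          _ ≤ ∑ _j : α, M := Finset.sum_le_sum fun j _ => hf j
          _ = M * Fintype.card α := by rw [Finset.sum_const, nsmul_eq_mul, Finset.card_univ]; ring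
      have b1 : |(1 - P) * (n y - g k y)| ≤ E := by
        rw [abs_mul, abs_of_nonneg (by linarith)]
        have := ih' y
        calc (1 - P) * |n y - g k y| ≤ 1 * E := by
              refine mul_le_mul (by linarith) this (abs_nonneg _) (by norm_num)
          _ = E := one_mul E
      have b2 : |(∑ j, (a k j (fl y j) : ℝ) / Q * (n (fl y j) - g k (fl y j))) /
          Fintype.card α| ≤ E := by
        refine avg _ _ fun j => ?_
        rw [abs_mul, abs_of_nonneg (hq j _).1]
        have := ih' (fl y j)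
        calc (a k j (fl y j) : ℝ) / Q * |n (fl y j) - g k (fl y j)| ≤ 1 * E := by
              refine mul_le_mul (hq j _).2 this (abs_nonneg _) (by norm_num)
          _ = E := one_mul E
      have hg : ∀ z, |g k z| ≤ 2 := by
        intro z
        have := hgb k (by omega) z
        rw [abs_le]
        constructor <;> linarith
      have b3 : |(-((∑ j, ((a k j y : ℝ) / Q - p k j y)) * g k y / Fintype.card α))| ≤
          1 / Q * 2 := by
        rw [abs_neg, Finset.sum_mul]
        refine avg _ _ fun j => ?_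
        rw [abs_mul]
        exact mul_le_mul (hap k (by omega) j y) (hg y) (abs_nonneg _) (by positivity)
      have b4 : |(∑ j, ((a k j (fl y j) : ℝ) / Q - p k j (fl y j)) * g k (fl y j)) /
          Fintype.card α| ≤ 1 / Q * 2 := by
        refine avg _ _ fun j => ?_
        rw [abs_mul]
        exact mul_le_mul (hap k (by omega) j _) (hg _) (abs_nonneg _) (by positivity)
      have hfin : (2 ^ (k + 1) - 1) * (4 / (Q : ℝ)) = E + E + 1 / Q * 2 + 1 / Q * 2 := by
        rw [hE, pow_succ]
        ring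
      rw [hfin]
      refine (abs_add_le _ _).trans ?_
      refine add_le_add ((abs_add_le _ _).trans ?_) b4
      refine add_le_add ((abs_add_le _ _).trans ?_) b3
      exact add_le_add b1 b2
  intro y
  refine (main K le_rfl y).trans ?_
  have h1 : (0 : ℝ) ≤ 4 / Q := by positivity
  calc (2 ^ K - 1) * (4 / (Q : ℝ)) ≤ 2 ^ K * (4 / Q) := by nlinarith
    _ = 2 ^ K * 4 / Q := by ring

end Pool.Agent.STR.H94
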